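import Mathlib
import Pool.Agent.Lib.MP_6a062b_co.Main
import Pool.Agent.Lib.MP_6a062b_co.Equiv

namespace Pool.Agent.Results.MP_6a062b_co.SquareMinusTwo

open Finset

/-- The shape `D_n`: cells `(i, j)` (row `i` from the top, column `j`) with `1 ≤ i, j ≤ n`, the two
cells `(1, n-1)` and `(1, n)` removed. -/
def cells (n : ℕ) : Finset (ℕ × ℕ) :=
  (Finset.Icc 1 n ×ˢ Finset.Icc 1 n) \ {(1, n - 1), (1, n)}

/-- A bijection from the cells of `D_n` to `{1, ..., n^2 - 2}` is a standard Young tableau if it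
increases along rows and down columns. -/
def IsSYT (n : ℕ) (T : cells n ≃ Finset.Icc 1 (n ^ 2 - 2)) : Prop :=
  (∀ a b : cells n, b.1 = (a.1.1, a.1.2 + 1) → T a < T b) ∧
    (∀ a b : cells n, b.1 = (a.1.1 + 1, a.1.2) → T a < T b)

/-- `F m = 0! 1! ... (m-1)!` -/
def F (m : ℕ) : ℕ := ∏ i ∈ Finset.range m, i.factorial

theorem result (n : ℕ) (hn : 2 ≤ n) :
    (Nat.card {T : cells n ≃ Finset.Icc 1 (n ^ 2 - 2) // IsSYT n T} : ℚ) =
      6 * ((n ^ 2 - 2).factorial : ℚ) * ((3 * n - 4).factorial : ℚ) ^ 2 * (F (n - 2) : ℚ) ^ 2 /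
        (((6 * n - 8).factorial : ℚ) * ((2 * n - 2).factorial : ℚ) *
          ((n - 2).factorial : ℚ) ^ 2 * (F (2 * n - 4) : ℚ)) := by
  obtain ⟨k, rfl⟩ : ∃ k, n = k + 2 := ⟨n - 2, by omega⟩
  have hcells : cells (k + 2) = Pool.Agent.Lib.MP_6a062b_co.D k := rfl
  have hcard : (cells (k + 2)).card = (k + 2) ^ 2 - 2 := by
    have := Pool.Agent.Lib.MP_6a062b_co.card_D k
    rw [hcells, pow_two]
    omega
  have h1 : Nat.card {T : cells (k + 2) ≃ Finset.Icc 1 ((k + 2) ^ 2 - 2) // IsSYT (k + 2) T} =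
      Pool.Agent.Lib.MP_6a062b_co.e Pool.Agent.Lib.MP_6a062b_co.adj
        (Pool.Agent.Lib.MP_6a062b_co.D k) := by
    rw [← hcells, ← Pool.Agent.Lib.MP_6a062b_co.card_equiv
      Pool.Agent.Lib.MP_6a062b_co.adj (cells (k + 2)) ((k + 2) ^ 2 - 2) hcard]
    apply Nat.card_congr
    apply Equiv.subtypeEquivRight
    intro T
    constructor
    · rintro ⟨hr, hc⟩ a b hab
      rcases hab with ⟨h, h'⟩ | ⟨h, h'⟩
      · exact hr a b (Prod.ext h h')
      · exact hc a b (Prod.ext h h')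
    · intro h
      refine ⟨fun a b hab => h a b (Or.inl ?_), fun a b hab => h a b (Or.inr ?_)⟩
      · rw [hab]; exact ⟨rfl, rfl⟩
      · rw [hab]; exact ⟨rfl, rfl⟩
  have h2 := Pool.Agent.Lib.MP_6a062b_co.e_D_final k
  rw [h1]
  rw [← hcells, hcard] at h2
  have h3 : Pool.Agent.Lib.MP_6a062b_co.e Pool.Agent.Lib.MP_6a062b_co.adj (cells (k + 2)) *
      ((6 * k + 4).factorial * (2 * k + 2).factorial * (k.factorial) ^ 2 * F (2 * k)) =
      6 * ((k + 2) ^ 2 - 2).factorial * ((3 * k + 2).factorial) ^ 2 * (F k) ^ 2 := by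
    exact_mod_cast h2
  have h4 := congrArg (fun x : ℕ => (x : ℚ)) h3
  push_cast at h4
  rw [show 3 * (k + 2) - 4 = 3 * k + 2 by omega, show 6 * (k + 2) - 8 = 6 * k + 4 by omega,
    show 2 * (k + 2) - 2 = 2 * k + 2 by omega, show 2 * (k + 2) - 4 = 2 * k by omega,
    show k + 2 - 2 = k by omega]
  rw [eq_div_iff]
  · rw [← hcells]
    exact_mod_cast h3
  · have hF : (F (2 * k) : ℚ) ≠ 0 := by
      rw [F]
      push_cast
      exact Finset.prod_ne_zero_iff.2 (fun i _ => by exact_mod_cast Nat.factorial_ne_zero i)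
    have a1 : ((6 * k + 4).factorial : ℚ) ≠ 0 := by exact_mod_cast Nat.factorial_ne_zero _
    have a2 : ((2 * k + 2).factorial : ℚ) ≠ 0 := by exact_mod_cast Nat.factorial_ne_zero _
    have a3 : (k.factorial : ℚ) ≠ 0 := by exact_mod_cast Nat.factorial_ne_zero _
    positivity

end Pool.Agent.Results.MP_6a062b_co.SquareMinusTwo
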